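import Mathlib

open Set Topology

namespace Pool.Agent.Results.MP_0c5bac_gt.Baire

universe u v

section
variable {X : Type u} {Y : Type v} [TopologicalSpace X] [TopologicalSpace Y]

lemma step [RegularSpace X] {f : X → Y} (hc : Continuous f) (ho : IsOpenMap f) {U : Set X}
    (hU : IsOpen U) (hd : Dense U) (V : Set X) : ∃ 𝒜 : Set (Set X), IsOpen V →
      (∀ W ∈ 𝒜, IsOpen W ∧ closure W ⊆ V ∩ U) ∧
      𝒜.Pairwise (fun W W' => Disjoint (f '' W) (f '' W')) ∧
      f '' V ⊆ closure (⋃ W ∈ 𝒜, f '' W) := by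
  obtain ⟨𝒜, h𝒜⟩ := zorn_subset {𝒜 : Set (Set X) | (∀ W ∈ 𝒜, IsOpen W ∧ closure W ⊆ V ∩ U) ∧
      𝒜.Pairwise (fun W W' => Disjoint (f '' W) (f '' W'))} (by
    intro c hc hchain
    refine ⟨⋃₀ c, ⟨?_, ?_⟩, fun s hs => subset_sUnion_of_mem hs⟩
    · rintro W ⟨s, hs, hW⟩
      exact (hc hs).1 W hW
    · rintro W ⟨s, hs, hW⟩ W' ⟨t, ht, hW'⟩ hne
      rcases hchain.total hs ht with h | h
      · exact (hc ht).2 (h hW) hW' hne
      · exact (hc hs).2 hW (h hW') hne)
  refine ⟨𝒜, fun hV => ⟨h𝒜.1.1, h𝒜.1.2, ?_⟩⟩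
  rintro _ ⟨x, hx, rfl⟩
  by_contra hn
  have hop : IsOpen (V ∩ f ⁻¹' (closure (⋃ W ∈ 𝒜, f '' W))ᶜ) :=
    hV.inter (isClosed_closure.isOpen_compl.preimage hc)
  obtain ⟨z, hz, hzU⟩ := hd.inter_open_nonempty _ hop ⟨x, hx, hn⟩
  obtain ⟨C, ⟨hC1, hC2⟩, hC3⟩ := (closed_nhds_basis z).mem_iff.1 ((hop.inter hU).mem_nhds ⟨hz, hzU⟩)
  have hsub : closure (interior C) ⊆ C := closure_minimal interior_subset hC2
  have hdisj : ∀ W ∈ 𝒜, Disjoint (f '' interior C) (f '' W) := by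
    intro W hW
    rw [disjoint_left]
    rintro _ ⟨w, hw, rfl⟩ hw'
    exact (hC3 (interior_subset hw)).1.2 (subset_closure (mem_biUnion hW hw'))
  have hmem : interior C ∈ 𝒜 := by
    refine h𝒜.2 (y := insert (interior C) 𝒜) ⟨?_, ?_⟩ (subset_insert _ _) (mem_insert _ _)
    · rintro W (rfl | hW)
      · exact ⟨isOpen_interior, fun w hw => ⟨(hC3 (hsub hw)).1.1, (hC3 (hsub hw)).2⟩⟩
      · exact h𝒜.1.1 W hW
    · refine h𝒜.1.2.insert fun W hW _ => ⟨hdisj W hW, (hdisj W hW).symm⟩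
  have hz' : f z ∈ f '' interior C := ⟨z, mem_interior_iff_mem_nhds.2 hC1, rfl⟩
  exact disjoint_left.1 (hdisj _ hmem) hz' hz'

theorem baire_of_open [RegularSpace X] [BaireSpace Y] {f : X → Y} (hc : Continuous f)
    (ho : IsOpenMap f) (hk : ∀ x, IsCompact (f ⁻¹' {f x})) : BaireSpace X := by
  refine ⟨fun U hU hd => ?_⟩
  rw [dense_iff_inter_open]
  intro W₀ hW₀ hne
  choose 𝒜 h𝒜 using fun n V => step hc ho (hU n) (hd n) V
  let 𝒱 : ℕ → Set (Set X) := fun n => Nat.rec {W₀} (fun n S => ⋃ V ∈ S, 𝒜 n V) n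
  have hs : ∀ n, 𝒱 (n + 1) = ⋃ V ∈ 𝒱 n, 𝒜 n V := fun n => rfl
  have hP : ∀ n, (∀ V ∈ 𝒱 n, IsOpen V) ∧
      (𝒱 n).Pairwise (fun W W' => Disjoint (f '' W) (f '' W')) ∧
      f '' W₀ ⊆ closure (⋃ W ∈ 𝒱 n, f '' W) := by
    intro n
    induction n with
    | zero =>
      refine ⟨fun V hV => (show V = W₀ from hV) ▸ hW₀, pairwise_singleton _ _, ?_⟩
      exact fun y hy => subset_closure (mem_biUnion (show W₀ ∈ 𝒱 0 from rfl) hy)
    | succ n ih =>
      obtain ⟨h1, h2, h3⟩ := ih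
      rw [hs]
      refine ⟨?_, ?_, ?_⟩
      · intro W hW
        obtain ⟨V, hV, hW⟩ := mem_iUnion₂.1 hW
        exact ((h𝒜 n V (h1 V hV)).1 W hW).1
      · intro W hW W' hW' hne
        obtain ⟨V, hV, hW⟩ := mem_iUnion₂.1 hW
        obtain ⟨V', hV', hW'⟩ := mem_iUnion₂.1 hW'
        by_cases hVV : V = V'
        · subst hVV
          exact (h𝒜 n V (h1 V hV)).2.1 hW hW' hne
        · refine (h2 hV hV' hVV).mono (image_mono ?_) (image_mono ?_)
          · exact fun w hw => (((h𝒜 n V (h1 V hV)).1 W hW).2 (subset_closure hw)).1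
          · exact fun w hw => (((h𝒜 n V' (h1 V' hV')).1 W' hW').2 (subset_closure hw)).1
      · refine h3.trans (closure_minimal ?_ isClosed_closure)
        refine iUnion₂_subset fun V hV => (h𝒜 n V (h1 V hV)).2.2.trans (closure_mono ?_)
        exact iUnion₂_subset fun W hW => subset_biUnion_of_mem (u := fun W => f '' W)
          (mem_biUnion hV hW)
  have hdense : Dense (⋂ n, ((⋃ W ∈ 𝒱 n, f '' W) ∪ (closure (f '' W₀))ᶜ)) := by
    refine dense_iInter_of_isOpen (fun n => ?_) fun n => ?_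
    · exact (isOpen_biUnion fun W hW => ho W ((hP n).1 W hW)).union isClosed_closure.isOpen_compl
    · intro y
      rw [closure_union]
      by_cases hy : y ∈ closure (f '' W₀)
      · exact Or.inl (closure_minimal (hP n).2.2 isClosed_closure hy)
      · exact Or.inr (subset_closure hy)
  obtain ⟨y, hy, hy'⟩ := hdense.inter_open_nonempty _ (ho W₀ hW₀) (hne.image f)
  have hV : ∀ n, ∃ V ∈ 𝒱 n, y ∈ f '' V := fun n => by
    rcases mem_iInter.1 hy' n with h | h
    · obtain ⟨V, hV, h⟩ := mem_iUnion₂.1 h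
      exact ⟨V, hV, h⟩
    · exact (h (subset_closure hy)).elim
  choose V hV hyV using hV
  have hnest : ∀ n, closure (V (n + 1)) ⊆ V n ∩ U n := by
    intro n
    have := hV (n + 1)
    rw [hs] at this
    obtain ⟨V', hV', hW⟩ := mem_iUnion₂.1 this
    have h1 := ((h𝒜 n V' ((hP n).1 V' hV')).1 _ hW).2
    by_cases hVV : V' = V n
    · exact hVV ▸ h1
    · exfalso
      refine disjoint_left.1 ((hP n).2.1 hV' (hV n) hVV) ?_ (hyV n)
      exact image_mono (fun w hw => (h1 (subset_closure hw)).1) (hyV (n + 1))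
  obtain ⟨x₀, -, rfl⟩ := hy
  have hanti : Antitone fun n => closure (V n) :=
    antitone_nat_of_succ_le fun n => fun w hw => subset_closure (hnest n hw).1
  obtain ⟨x, -, hx⟩ := (hk x₀).inter_iInter_nonempty (fun n => closure (V n))
    (fun n => isClosed_closure) (by
      intro F
      obtain ⟨w, hw, hw'⟩ := hyV (F.sup id)
      exact ⟨w, hw', mem_iInter₂.2 fun n hn => hanti (Finset.le_sup (f := id) hn) (subset_closure hw)⟩)
  refine ⟨x, ?_, mem_iInter.2 fun n => (hnest n (mem_iInter.1 hx (n + 1))).2⟩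
  have h0 : V 0 = W₀ := hV 0
  exact h0 ▸ (hnest 0 (mem_iInter.1 hx 1)).1
end

theorem result : ∀ (G : Type u) [Group G] [TopologicalSpace G] [IsTopologicalGroup G]
    (K : Subgroup G) [K.Normal], IsCompact (K : Set G) → BaireSpace (G ⧸ K) → BaireSpace G := by
  intro G _ _ _ K _ hK hB
  refine baire_of_open (f := (QuotientGroup.mk : G → G ⧸ K)) QuotientGroup.continuous_mk
    QuotientGroup.isOpenMap_coe fun x => ?_
  have : (QuotientGroup.mk : G → G ⧸ K) ⁻¹' {(x : G ⧸ K)} = (fun k => x * k) '' (K : Set G) := by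
    ext y
    simp only [mem_preimage, mem_singleton_iff, mem_image, SetLike.mem_coe]
    rw [eq_comm, QuotientGroup.eq]
    constructor
    · intro h
      exact ⟨_, h, by simp⟩
    · rintro ⟨k, hk, rfl⟩
      simpa using hk
  rw [this]
  exact hK.image (by fun_prop)

end Pool.Agent.Results.MP_0c5bac_gt.Baire
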